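import Pool.Agent.Y605.AC.K
import Pool.Agent.NPC.Dec

/-!
# ACYC-ST is NP-hard for every fixed connectivity `k ≥ 4`

The definitions (`MEdge`, `IsGoodOr`, `AcycST`) are in `H622R2/AcycST`.  The multigraph of the
library for `k = 4` gets, for every vertex other than `s`, `t`, further `k - 4` parallel edges to
`s` and `k - 4` parallel edges to `t`.
-/

namespace Pool.Agent.Results.MP_5d404d_lc.EveryFixedConnectivity

open Pool.Agent.NPC Pool.Agent.H622R2 Pool.Agent.NPC.Y605AC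

theorem hard (k : ℕ) (hk : 4 ≤ k) :
    HardPr (fun I : List ℕ × List MEdge × ℕ × ℕ × ℕ => I.2.2.2.2 = k ∧
      (I.2.2.1 ∈ I.1 ∧ I.2.2.2.1 ∈ I.1 ∧ ∀ e ∈ I.2.1, e.2.1 ∈ I.1 ∧ e.2.2 ∈ I.1))
      (fun I : List ℕ × List MEdge × ℕ × ℕ × ℕ => AcycST I) := by
  obtain ⟨d, rfl⟩ : ∃ d, k = 4 + d := ⟨k - 4, by omega⟩
  exact hardI_SAT3.toHardPr.trans (acRed'_poly d) (fun φ _ => ⟨rfl, valid' d φ⟩)
    (fun φ _ => acRed'_correct d φ)

/-- **ACYC-ST is NP-hard, for every fixed connectivity `k ≥ 4`.** -/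
theorem result :
    NPHardP (fun I : List ℕ × List MEdge × ℕ × ℕ × ℕ => AcycST I) ∧
    ∀ k : ℕ, 4 ≤ k →
      (∀ L : Set (List Bool), InNP L → ∃ f : List Bool → List ℕ × List MEdge × ℕ × ℕ × ℕ,
        PolyTime (fun x => bits (f x)) ∧ ∀ x, (f x).2.2.2.2 = k ∧
          ((f x).2.2.1 ∈ (f x).1 ∧ (f x).2.2.2.1 ∈ (f x).1 ∧
            ∀ e ∈ (f x).2.1, e.2.1 ∈ (f x).1 ∧ e.2.2 ∈ (f x).1) ∧
          (x ∈ L ↔ AcycST (f x))) ∧
      (InPP (fun I : List ℕ × List MEdge × ℕ × ℕ × ℕ => I.2.2.2.2 = k ∧ AcycST I) →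
        ∀ L : Set (List Bool), InNP L → InP L) := by
  refine ⟨(hard 4 le_rfl).toHardI.toNPHardP, fun k hk => ⟨fun L hL => ?_, fun h L hL => ?_⟩⟩
  · obtain ⟨f, hf, h1, h2⟩ := hard k hk L hL
    exact ⟨f, PC.toPolyTime hf, fun x => ⟨(h1 x).1, (h1 x).2, h2 x⟩⟩
  · have h1 : HardPr (fun _ => True)
        (fun I : List ℕ × List MEdge × ℕ × ℕ × ℕ => I.2.2.2.2 = k ∧ AcycST I) := by
      intro L hL
      obtain ⟨f, hf, h1, h2⟩ := hard k hk L hL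
      exact ⟨f, hf, fun _ => trivial, fun x => (h2 x).trans ⟨fun h => ⟨(h1 x).1, h⟩, fun h => h.2⟩⟩
    exact InP.of_reduces (h1.toHardI.toNPHardP L hL) h

end Pool.Agent.Results.MP_5d404d_lc.EveryFixedConnectivity
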